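import Mathlib
import Pool.Agent.Lib.MP_808fa7_an.Main

namespace Pool.Agent.Results.MP_808fa7_an.DensityEquivalence

open Filter Topology

universe u

variable {M : Type u} [MetricSpace M]

/-- `Lip_0(M)` as a set of functions: the Lipschitz functions vanishing at `o`. -/
def LipZ (o : M) : Set (M → ℝ) := {f | (∃ K : NNReal, LipschitzWith K f) ∧ f o = 0}

/-- The norm of `Lip_0(M)`; the pairs with `p.1 = p.2` contribute `0`. -/
noncomputable def lipNorm (f : M → ℝ) : ℝ := ⨆ p : M × M, |f p.1 - f p.2| / dist p.1 p.2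

/-- The molecule `m_{p,q}` as a functional on functions. -/
noncomputable def mol (p q : M) : (M → ℝ) → ℝ := fun f => (f p - f q) / dist p q

/-- The norm of `Lip_0(M)^*` (hence of `F(M)`): the supremum over the unit ball of `Lip_0(M)`. -/
noncomputable def dualNorm (o : M) (Φ : (M → ℝ) → ℝ) : ℝ :=
  ⨆ f : {f : M → ℝ // f ∈ LipZ o ∧ lipNorm f ≤ 1}, |Φ f.1|

/-- `f` strongly exposes at `m_{p,q}`. -/
def StronglyExposesAt (o : M) (f : M → ℝ) (p q : M) : Prop :=
  ∀ u v : ℕ → M, (∀ n, u n ≠ v n) →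
    Tendsto (fun n => |mol (u n) (v n) f|) atTop (𝓝 (lipNorm f)) →
    ∃ φ : ℕ → ℕ, StrictMono φ ∧
      (Tendsto (fun n => dualNorm o (mol (u (φ n)) (v (φ n)) - mol p q)) atTop (𝓝 0) ∨
        Tendsto (fun n => dualNorm o (mol (u (φ n)) (v (φ n)) + mol p q)) atTop (𝓝 0))

/-- The set `LipSE(M)`. -/
def LipSE (o : M) : Set (M → ℝ) := {f | f ∈ LipZ o ∧ ∃ p q : M, p ≠ q ∧ StronglyExposesAt o f p q}

/-- The set `SNA(M)`. -/
def SNA (o : M) : Set (M → ℝ) :=
  {f | f ∈ LipZ o ∧ ∃ p q : M, p ≠ q ∧ lipNorm f = |f p - f q| / dist p q}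

/-- Norm density of a subset `S` of `Lip_0(M)` in `Lip_0(M)`. -/
def DenseInLip (o : M) (S : Set (M → ℝ)) : Prop :=
  ∀ f ∈ LipZ o, ∀ ε > 0, ∃ g ∈ S, lipNorm (f - g) < ε

open Pool.Agent.Lib.MP_808fa7_an

/-- A member of `LipZ o` as an element of the normed space of the auxiliary file. -/
def toLip (o : M) (f : M → ℝ) (hf : f ∈ LipZ o) : Main.LipZero M o := ⟨f, hf⟩

theorem norm_eq (o : M) (f : Main.LipZero M o) : ‖f‖ = lipNorm f.1 := rfl

theorem dualNorm_eq (o : M) (T : StrongDual ℝ (Main.LipZero M o)) (Φ : (M → ℝ) → ℝ)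
    (h : ∀ f : Main.LipZero M o, T f = Φ f.1) : dualNorm o Φ = ‖T‖ := by
  rw [← ContinuousLinearMap.sSup_unitClosedBall_eq_norm T]
  unfold dualNorm iSup
  congr 1
  ext r
  constructor
  · rintro ⟨⟨f, hf, hf1⟩, rfl⟩
    refine ⟨toLip o f hf, ?_, ?_⟩
    · rw [mem_closedBall_zero_iff]
      exact hf1
    · change ‖T (toLip o f hf)‖ = |Φ f|
      rw [h, Real.norm_eq_abs]
      rfl
  · rintro ⟨f, hf, rfl⟩
    rw [mem_closedBall_zero_iff] at hf
    refine ⟨⟨f.1, f.2, hf⟩, ?_⟩
    change |Φ f.1| = ‖T f‖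
    rw [h, Real.norm_eq_abs]

theorem mol_eq (o : M) (p q : M) (f : Main.LipZero M o) :
    Main.pairing (Main.molecule p q) f = mol p q f.1 := by
  rw [Main.molecule_apply]
  unfold mol
  rw [div_eq_inv_mul]

theorem dualNorm_sub (o p q r s : M) :
    dualNorm o (mol p q - mol r s) =
      dist (Main.molecule p q : Main.LipFree M o) (Main.molecule r s) := by
  have h : ∀ f : Main.LipZero M o,
      (Main.moleculeDual p q - Main.moleculeDual r s : StrongDual ℝ (Main.LipZero M o)) f
        = (mol p q - mol r s) f.1 := by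
    intro f
    have h1 := mol_eq o p q f
    have h2 := mol_eq o r s f
    calc (Main.moleculeDual p q - Main.moleculeDual r s : StrongDual ℝ (Main.LipZero M o)) f
        = Main.pairing (Main.molecule p q) f - Main.pairing (Main.molecule r s) f := rfl
      _ = _ := by rw [h1, h2]; rfl
  rw [dualNorm_eq o _ _ h, dist_eq_norm]
  rfl

theorem dualNorm_add (o p q r s : M) :
    dualNorm o (mol p q + mol r s) =
      dist (Main.molecule p q : Main.LipFree M o) (-Main.molecule r s) := by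
  have h : ∀ f : Main.LipZero M o,
      (Main.moleculeDual p q + Main.moleculeDual r s : StrongDual ℝ (Main.LipZero M o)) f
        = (mol p q + mol r s) f.1 := by
    intro f
    have h1 := mol_eq o p q f
    have h2 := mol_eq o r s f
    calc (Main.moleculeDual p q + Main.moleculeDual r s : StrongDual ℝ (Main.LipZero M o)) f
        = Main.pairing (Main.molecule p q) f + Main.pairing (Main.molecule r s) f := rfl
      _ = _ := by rw [h1, h2]; rfl
  rw [dualNorm_eq o _ _ h, dist_eq_norm, sub_neg_eq_add]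
  rfl

theorem stronglyExposesAt_iff (o : M) (f : Main.LipZero M o) (p q : M) :
    StronglyExposesAt o f.1 p q ↔ Main.StronglyExposesAt f p q := by
  unfold StronglyExposesAt Main.StronglyExposesAt
  refine forall_congr' fun u => forall_congr' fun v => forall_congr' fun _ => ?_
  simp only [mol_eq, norm_eq]
  refine forall_congr' fun _ => exists_congr fun φ => and_congr_right fun _ => ?_
  have e1 : ∀ n, dualNorm o (mol (u (φ n)) (v (φ n)) - mol p q)
      = dist (Main.molecule (u (φ n)) (v (φ n)) : Main.LipFree M o) (Main.molecule p q) :=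
    fun n => dualNorm_sub o _ _ _ _
  have e2 : ∀ n, dualNorm o (mol (u (φ n)) (v (φ n)) + mol p q)
      = dist (Main.molecule (u (φ n)) (v (φ n)) : Main.LipFree M o) (-Main.molecule p q) :=
    fun n => dualNorm_add o _ _ _ _
  simp only [e1, e2]
  exact or_congr tendsto_iff_dist_tendsto_zero.symm tendsto_iff_dist_tendsto_zero.symm

theorem denseInLip_iff (o : M) (S : Set (M → ℝ)) (S' : Set (Main.LipZero M o))
    (hS : ∀ f, f ∈ S ↔ ∃ hf : f ∈ LipZ o, toLip o f hf ∈ S') :
    DenseInLip o S ↔ Dense S' := by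
  rw [Metric.dense_iff]
  constructor
  · intro h f ε hε
    obtain ⟨g, hg, hfg⟩ := h f.1 f.2 ε hε
    obtain ⟨hg0, hg'⟩ := (hS g).1 hg
    refine ⟨toLip o g hg0, ?_, hg'⟩
    rw [Metric.mem_ball, dist_comm, dist_eq_norm]
    exact hfg
  · intro h f hf ε hε
    obtain ⟨g, hgb, hg⟩ := h (toLip o f hf) ε hε
    refine ⟨g.1, (hS _).2 ⟨g.2, hg⟩, ?_⟩
    rw [Metric.mem_ball, dist_comm, dist_eq_norm] at hgb
    exact hgb

/-- For every pointed metric space `(M, o)`: `LipSE(M)` is dense in `Lip_0(M)` if and only if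
`SNA(M)` is dense in `Lip_0(M)`. -/
theorem result : ∀ (M : Type u) [MetricSpace M] (o : M),
    DenseInLip o (LipSE o) ↔ DenseInLip o (SNA o) := by
  intro M _ o
  rw [denseInLip_iff o (LipSE o) (Main.LipSE M o), denseInLip_iff o (SNA o) (Main.SNA M o)]
  · exact Main.dense_iff
  · intro f
    constructor
    · rintro ⟨hf, h⟩
      exact ⟨hf, h⟩
    · rintro ⟨hf, h⟩
      exact ⟨hf, h⟩
  · intro f
    constructor
    · rintro ⟨hf, p, q, hpq, h⟩
      exact ⟨hf, p, q, hpq, (stronglyExposesAt_iff o (toLip o f hf) p q).1 h⟩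
    · rintro ⟨hf, p, q, hpq, h⟩
      exact ⟨hf, p, q, hpq, (stronglyExposesAt_iff o (toLip o f hf) p q).2 h⟩

end Pool.Agent.Results.MP_808fa7_an.DensityEquivalence
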